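import Pool.Agent.TH275.AM.Equiv2

/-!
# Two forms of the Aaronson-Ambainis conjecture without variances and influences

The conjecture is equivalent to a weak clustering statement: on some subcube of codimension
polynomial in `d` some interval, possibly as short as any prescribed function of `d`, has
probability at least ten thousand times its length.  It is also equivalent to the statement that a
bounded polynomial cannot be almost Boolean and almost balanced on all subcubes of codimension
polynomial in `d`.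
-/

set_option autoImplicit false

namespace Pool.Agent.Results.MP_cf5f8b_an.ClusterForms

variable {n : ℕ}

/-- The uniform mean. -/
noncomputable def mean (g : (Fin n → Bool) → ℝ) : ℝ := ((2:ℝ) ^ n)⁻¹ * ∑ x : Fin n → Bool, g x

/-- The variance. -/
noncomputable def variance (g : (Fin n → Bool) → ℝ) : ℝ := mean (fun x => g x ^ 2) - mean g ^ 2

/-- The Fourier coefficients above level `d` vanish. -/
def DegreeLE (d : ℕ) (f : (Fin n → Bool) → ℝ) : Prop :=
  ∀ S : Finset (Fin n), d < S.card →
    ∑ x : Fin n → Bool, f x * ∏ i ∈ S, (-1 : ℝ) ^ (x i).toNat = 0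

/-- The influence of the coordinate `j`. -/
noncomputable def influence (j : Fin n) (f : (Fin n → Bool) → ℝ) : ℝ :=
  mean (fun x => ((f x - f (Function.update x j (!x j))) / 2) ^ 2)

/-- The restriction of `f` to the subcube where the coordinates in `S` are fixed as in `a`. -/
def restrict (S : Finset (Fin n)) (a : Fin n → Bool) (f : (Fin n → Bool) → ℝ) :
    (Fin n → Bool) → ℝ :=
  fun x => f (fun i => if i ∈ S then a i else x i)

/-- The probability that `g` lies in the interval `[t - ℓ, t + ℓ]`. -/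
noncomputable def probNear (g : (Fin n → Bool) → ℝ) (t ℓ : ℝ) : ℝ :=
  mean (fun x => if |g x - t| ≤ ℓ then (1:ℝ) else 0)

/-- The Aaronson-Ambainis conjecture (frozen statement S06215). -/
def AaronsonAmbainis : Prop :=
  ∃ C₁ C₂ : ℝ, 0 < C₁ ∧ 0 < C₂ ∧
    ∀ n : ℕ, 1 ≤ n → ∀ f : (Fin n → Bool) → ℝ, (∀ x, |f x| ≤ 1) →
      ∀ d : ℕ, DegreeLE d f → ∃ j : Fin n, C₁ * (variance f / (d : ℝ)) ^ C₂ ≤ influence j f

/-- Every bounded function of degree at most `d` has, on some subcube of codimension at most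
`C d ^ C`, an interval of length `2 ℓ ≥ 2 δ(d)` and probability at least `10000` times its
length. -/
def Clusters (δ : ℕ → ℝ) : Prop :=
  ∃ C : ℕ, ∀ (n : ℕ) (f : (Fin n → Bool) → ℝ), (∀ x, |f x| ≤ 1) → ∀ d : ℕ, 1 ≤ d →
    DegreeLE d f → ∃ (S : Finset (Fin n)) (a : Fin n → Bool) (t ℓ : ℝ),
      (S.card : ℝ) ≤ C * (d:ℝ) ^ C ∧ δ d ≤ ℓ ∧ 10000 * (2 * ℓ) ≤ probNear (restrict S a f) t ℓ

/-- Every bounded function of degree at most `d` has, on some subcube of codimension at most
`C d ^ C`, mean at least `ε` in absolute value or second moment at most `1 - ε`. -/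
def NotAlmostBoolean (ε : ℝ) : Prop :=
  ∃ C : ℕ, ∀ (n : ℕ) (f : (Fin n → Bool) → ℝ), (∀ x, |f x| ≤ 1) → ∀ d : ℕ, 1 ≤ d →
    DegreeLE d f → ∃ (S : Finset (Fin n)) (a : Fin n → Bool), (S.card : ℝ) ≤ C * (d:ℝ) ^ C ∧
      (ε ≤ |mean (restrict S a f)| ∨ mean (fun x => restrict S a f x ^ 2) ≤ 1 - ε)

open Pool.Agent.H572R2 Pool.Agent.H572R4.QA Pool.Agent.TH334.AA Pool.Agent.TH275.AM

theorem mean_eq (g : (Fin n → Bool) → ℝ) : mean g = EE g := by
  unfold mean EE
  rw [inv_mul_eq_div]

theorem variance_eq (g : (Fin n → Bool) → ℝ) : variance g = var g := by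
  unfold variance var
  rw [mean_eq, mean_eq]

theorem influence_eq (j : Fin n) (f : (Fin n → Bool) → ℝ) : influence j f = inf1 f j := by
  unfold influence inf1 dd
  rw [mean_eq]
  have : EE (fun x => ((f x - f (Function.update x j (!x j))) / 2) ^ 2)
      = EE (fun x => (1 / 4 : ℝ) * |f x - f (flp j x)| ^ 2) := by
    apply EE_congr; intro x; rw [sq_abs]
    show ((f x - f (flp j x)) / 2) ^ 2 = _
    ring
  rw [this, EE_mul]; ring

theorem aa_iff : AaronsonAmbainis ↔ P1 := by
  constructor
  · rintro ⟨C₁, C₂, h1, h2, h⟩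
    obtain ⟨M, hM⟩ := exists_nat_ge C₂
    refine ⟨C₁, M, h1, ?_⟩
    intro N f hf d hd hdeg hV
    have hN : 1 ≤ N := by
      by_contra hN
      have hN0 : N = 0 := by omega
      subst hN0
      have : var f = 0 := by
        unfold var EE
        simp
      linarith
    obtain ⟨j, hj⟩ := h N hN f hf d hdeg
    refine ⟨j, ?_⟩
    rw [variance_eq, influence_eq] at hj
    refine le_trans ?_ hj
    have hd1 : (1:ℝ) ≤ d := by exact_mod_cast hd
    have hq0 : 0 < var f / (d:ℝ) := by positivity
    have hq1 : var f / (d:ℝ) ≤ 1 := by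
      rw [div_le_one (by linarith)]
      have := var_le_one f hf
      linarith
    apply mul_le_mul_of_nonneg_left _ h1.le
    rw [← Real.rpow_natCast]
    exact Real.rpow_le_rpow_of_exponent_ge hq0 hq1 hM
  · rintro ⟨c, M, hc, h⟩
    refine ⟨c, (M:ℝ) + 1, hc, by positivity, ?_⟩
    intro N hN f hf d hdeg
    have hvar0 : 0 ≤ var f := by
      rw [var_vr]; exact vr_nonneg f
    by_cases hz : var f / (d:ℝ) = 0
    · refine ⟨⟨0, hN⟩, ?_⟩
      rw [variance_eq, influence_eq, hz, Real.zero_rpow (by positivity), mul_zero]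
      unfold inf1
      have : 0 ≤ EE (fun x => dd f ⟨0, hN⟩ x ^ 2) := EE_nonneg fun x => sq_nonneg _
      positivity
    · have hV : 0 < var f := by
        rcases hvar0.lt_or_eq with h | h
        · exact h
        · exfalso; apply hz; rw [← h]; simp
      have hd : 1 ≤ d := by
        by_contra hd
        have : d = 0 := by omega
        apply hz; rw [this]; simp
      obtain ⟨j, hj⟩ := h N f hf d hd hdeg hV
      refine ⟨j, ?_⟩
      rw [variance_eq, influence_eq]
      refine le_trans ?_ hj
      have hd1 : (1:ℝ) ≤ d := by exact_mod_cast hd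
      have hq0 : 0 < var f / (d:ℝ) := by positivity
      have hq1 : var f / (d:ℝ) ≤ 1 := by
        rw [div_le_one (by linarith)]
        have := var_le_one f hf
        linarith
      apply mul_le_mul_of_nonneg_left _ hc.le
      rw [← Real.rpow_natCast]
      exact Real.rpow_le_rpow_of_exponent_ge hq0 hq1 (by linarith)

theorem clusters_iff (δ : ℕ → ℝ) : Clusters δ ↔ CL δ := by
  unfold Clusters CL probNear
  simp only [mean_eq, ← mul_assoc, show (10000 * 2 : ℝ) = 20000 by norm_num]
  exact Iff.rfl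

theorem almost_iff (ε : ℝ) : NotAlmostBoolean ε ↔ NB ε := by
  unfold NotAlmostBoolean NB
  simp only [mean_eq]
  exact Iff.rfl

/-- Both forms are equivalent to the conjecture, for every prescribed scale and every fixed
`ε ≤ 1/2`. -/
theorem result (δ : ℕ → ℝ) (hδ : ∀ d, 0 < δ d) (hδ' : ∀ d, δ d ≤ 1 / 40000) (ε : ℝ) (hε : 0 < ε)
    (hε' : ε ≤ 1 / 2) :
    (AaronsonAmbainis ↔ Clusters δ) ∧ (AaronsonAmbainis ↔ NotAlmostBoolean ε) := by
  rw [aa_iff, clusters_iff, almost_iff]
  exact ⟨cl_iff δ hδ hδ', nb_iff ε hε hε'⟩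

end Pool.Agent.Results.MP_cf5f8b_an.ClusterForms
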