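import Pool.Agent.TH334.AA.Equiv2

/-!
# Equivalent forms of the Aaronson-Ambainis conjecture

The conjecture (every bounded function of degree `d` and variance `V` has a variable of influence at
least a power of `V / d`) holds if and only if every such function, after fixing polynomially many
(in `d / V`) variables, has a different mean, or a different variance, or a level one Fourier weight,
or a noise stable part (at any fixed noise rate), or a variable of influence, that is at least a
power of `V / d`; and if and only if its law changes, or some variable has such an influence, under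
some product measure with `∑ b_j ^ 2` polynomial in `d / V`.
-/

set_option autoImplicit false

namespace Pool.Agent.Results.MP_cf5f8b_an.Equivalences

variable {n : ℕ}

/-- The uniform mean. -/
noncomputable def mean (g : (Fin n → Bool) → ℝ) : ℝ := ((2:ℝ) ^ n)⁻¹ * ∑ x : Fin n → Bool, g x

/-- The variance. -/
noncomputable def variance (g : (Fin n → Bool) → ℝ) : ℝ := mean (fun x => g x ^ 2) - mean g ^ 2

/-- The Fourier coefficients above level `d` vanish. -/
def DegreeLE (d : ℕ) (f : (Fin n → Bool) → ℝ) : Prop :=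
  ∀ S : Finset (Fin n), d < S.card →
    ∑ x : Fin n → Bool, f x * ∏ i ∈ S, (-1 : ℝ) ^ (x i).toNat = 0

/-- The influence of the coordinate `j`. -/
noncomputable def influence (j : Fin n) (f : (Fin n → Bool) → ℝ) : ℝ :=
  mean (fun x => ((f x - f (Function.update x j (!x j))) / 2) ^ 2)

/-- The restriction of `f` to the subcube where the coordinates in `S` are fixed as in `a`. -/
def restrict (S : Finset (Fin n)) (a : Fin n → Bool) (f : (Fin n → Bool) → ℝ) :
    (Fin n → Bool) → ℝ :=
  fun x => f (fun i => if i ∈ S then a i else x i)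

/-- The Fourier weight at level one. -/
noncomputable def levelOne (g : (Fin n → Bool) → ℝ) : ℝ :=
  ∑ i, mean (fun x => g x * (-1 : ℝ) ^ (x i).toNat) ^ 2

/-- The part of the variance that survives noise of rate `κ`. -/
noncomputable def stablePart (κ : ℝ) (g : (Fin n → Bool) → ℝ) : ℝ :=
  ∑ T ∈ Finset.univ.erase (∅ : Finset (Fin n)), (1 - κ) ^ T.card
    * mean (fun x => g x * ∏ i ∈ T, (-1 : ℝ) ^ (x i).toNat) ^ 2

/-- The mean under the product measure for which the `j`-th sign has mean `b j`. -/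
noncomputable def tiltedMean (b : Fin n → ℝ) (g : (Fin n → Bool) → ℝ) : ℝ :=
  mean (fun x => g x * ∏ j, (1 + b j * (-1 : ℝ) ^ (x j).toNat))

/-- The Aaronson-Ambainis conjecture (frozen statement S06215). -/
def AaronsonAmbainis : Prop :=
  ∃ C₁ C₂ : ℝ, 0 < C₁ ∧ 0 < C₂ ∧
    ∀ n : ℕ, 1 ≤ n → ∀ f : (Fin n → Bool) → ℝ, (∀ x, |f x| ≤ 1) →
      ∀ d : ℕ, DegreeLE d f → ∃ j : Fin n, C₁ * (variance f / (d : ℝ)) ^ C₂ ≤ influence j f

/-- Every bounded function of degree at most `d` and variance `V > 0` satisfies `P C f d`, for one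
absolute constant `C`. -/
def ForSomeExponent (P : ∀ n : ℕ, ℕ → ((Fin n → Bool) → ℝ) → ℕ → Prop) : Prop :=
  ∃ C : ℕ, ∀ (n : ℕ) (f : (Fin n → Bool) → ℝ), (∀ x, |f x| ≤ 1) → ∀ d : ℕ, 1 ≤ d →
    DegreeLE d f → 0 < variance f → P n C f d

/-- Some subcube of codimension at most `(2 d / V) ^ C` on which the mean differs by at least
`(V / (2 d)) ^ C`. -/
def MeanMoves (n C : ℕ) (f : (Fin n → Bool) → ℝ) (d : ℕ) : Prop :=
  ∃ (S : Finset (Fin n)) (a : Fin n → Bool), (S.card : ℝ) ≤ (2 * d / variance f) ^ C ∧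
    (variance f / (2 * d)) ^ C ≤ |mean (restrict S a f) - mean f|

/-- Some subcube of codimension at most `(2 d / V) ^ C` on which the variance differs by at least
`(V / (2 d)) ^ C`. -/
def VarianceMoves (n C : ℕ) (f : (Fin n → Bool) → ℝ) (d : ℕ) : Prop :=
  ∃ (S : Finset (Fin n)) (a : Fin n → Bool), (S.card : ℝ) ≤ (2 * d / variance f) ^ C ∧
    (variance f / (2 * d)) ^ C ≤ |variance (restrict S a f) - variance f|

/-- Some restriction of at most `(2 d / V) ^ C` variables with level one weight at least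
`(V / (2 d)) ^ C`. -/
def LinearPart (n C : ℕ) (f : (Fin n → Bool) → ℝ) (d : ℕ) : Prop :=
  ∃ (S : Finset (Fin n)) (a : Fin n → Bool), (S.card : ℝ) ≤ (2 * d / variance f) ^ C ∧
    (variance f / (2 * d)) ^ C ≤ levelOne (restrict S a f)

/-- Some restriction of at most `(2 d / V) ^ C` variables for which the part of the variance that
survives noise of rate `κ` is at least `(V / (2 d)) ^ C`. -/
def StableRestriction (κ : ℝ) (n C : ℕ) (f : (Fin n → Bool) → ℝ) (d : ℕ) : Prop :=
  ∃ (S : Finset (Fin n)) (a : Fin n → Bool), (S.card : ℝ) ≤ (2 * d / variance f) ^ C ∧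
    (variance f / (2 * d)) ^ C ≤ stablePart κ (restrict S a f)

/-- Some restriction of at most `(2 d / V) ^ C` variables has a variable of influence at least
`(V / (2 d)) ^ C`. -/
def LocalInfluence (n C : ℕ) (f : (Fin n → Bool) → ℝ) (d : ℕ) : Prop :=
  ∃ (S : Finset (Fin n)) (a : Fin n → Bool) (j : Fin n),
    (S.card : ℝ) ≤ (2 * d / variance f) ^ C ∧
    (variance f / (2 * d)) ^ C ≤ influence j (restrict S a f)

/-- Some product measure with `∑ b_j ^ 2 ≤ (2 d / V) ^ C` under which the mean of some `1`-Lipschitz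
function `q` of `f` differs by at least `(V / (2 d)) ^ C` from its uniform mean. -/
def LawMoves (n C : ℕ) (f : (Fin n → Bool) → ℝ) (d : ℕ) : Prop :=
  ∃ b : Fin n → ℝ, (∀ j, |b j| ≤ 1) ∧ ∑ j, b j ^ 2 ≤ (2 * d / variance f) ^ C ∧
    ∃ q : ℝ → ℝ, (∀ s t : ℝ, |s| ≤ 1 → |t| ≤ 1 → |q s - q t| ≤ |s - t|) ∧
      (variance f / (2 * d)) ^ C ≤ |tiltedMean b (fun x => q (f x)) - mean (fun x => q (f x))|

/-- Some product measure with `∑ b_j ^ 2 ≤ (2 d / V) ^ C` for which some variable has influence at
least `(V / (2 d)) ^ C`. -/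
def TiltedInfluence (n C : ℕ) (f : (Fin n → Bool) → ℝ) (d : ℕ) : Prop :=
  ∃ b : Fin n → ℝ, (∀ j, |b j| ≤ 1) ∧ ∑ j, b j ^ 2 ≤ (2 * d / variance f) ^ C ∧
    ∃ j : Fin n, (variance f / (2 * d)) ^ C
      ≤ tiltedMean b (fun x => ((f x - f (Function.update x j (!x j))) / 2) ^ 2)

open Pool.Agent.H572R2 Pool.Agent.H572R4.QA Pool.Agent.TH334.AA

theorem mean_eq (g : (Fin n → Bool) → ℝ) : mean g = EE g := by
  unfold mean EE
  rw [inv_mul_eq_div]

theorem variance_eq (g : (Fin n → Bool) → ℝ) : variance g = var g := by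
  unfold variance var
  rw [mean_eq, mean_eq]

theorem influence_eq (j : Fin n) (f : (Fin n → Bool) → ℝ) : influence j f = inf1 f j := by
  unfold influence inf1 dd
  rw [mean_eq]
  have : EE (fun x => ((f x - f (Function.update x j (!x j))) / 2) ^ 2)
      = EE (fun x => (1 / 4 : ℝ) * |f x - f (flp j x)| ^ 2) := by
    apply EE_congr; intro x; rw [sq_abs]
    show ((f x - f (flp j x)) / 2) ^ 2 = _
    ring
  rw [this, EE_mul]; ring

theorem levelOne_eq (g : (Fin n → Bool) → ℝ) : levelOne g = ∑ i, lev g i ^ 2 := by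
  unfold levelOne lev
  apply Finset.sum_congr rfl
  intro i _
  rw [mean_eq]

theorem tiltedMean_eq (b : Fin n → ℝ) (g : (Fin n → Bool) → ℝ) :
    tiltedMean b g = mu (fun j => - b j) g := by
  unfold tiltedMean mu
  rw [mean_eq]
  apply EE_congr
  intro x
  congr 1
  apply Finset.prod_congr rfl
  intro j _
  cases x j <;> simp [sg]

theorem aa_iff : AaronsonAmbainis ↔ P1 := by
  constructor
  · rintro ⟨C₁, C₂, h1, h2, h⟩
    obtain ⟨M, hM⟩ := exists_nat_ge C₂
    refine ⟨C₁, M, h1, ?_⟩
    intro N f hf d hd hdeg hV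
    have hN : 1 ≤ N := by
      by_contra hN
      have hN0 : N = 0 := by omega
      subst hN0
      have : var f = 0 := by
        unfold var EE
        simp
      linarith
    obtain ⟨j, hj⟩ := h N hN f hf d hdeg
    refine ⟨j, ?_⟩
    rw [variance_eq, influence_eq] at hj
    refine le_trans ?_ hj
    have hd1 : (1:ℝ) ≤ d := by exact_mod_cast hd
    have hq0 : 0 < var f / (d:ℝ) := by positivity
    have hq1 : var f / (d:ℝ) ≤ 1 := by
      rw [div_le_one (by linarith)]
      have := var_le_one f hf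
      linarith
    apply mul_le_mul_of_nonneg_left _ h1.le
    rw [← Real.rpow_natCast]
    exact Real.rpow_le_rpow_of_exponent_ge hq0 hq1 hM
  · rintro ⟨c, M, hc, h⟩
    refine ⟨c, (M:ℝ) + 1, hc, by positivity, ?_⟩
    intro N hN f hf d hdeg
    have hvar0 : 0 ≤ var f := by
      unfold var
      have := EE_cs f (fun _ => (1:ℝ))
      simp only [mul_one, one_pow] at this
      rw [EE_const, mul_one] at this
      linarith
    by_cases hz : var f / (d:ℝ) = 0
    · refine ⟨⟨0, hN⟩, ?_⟩
      rw [variance_eq, influence_eq, hz, Real.zero_rpow (by positivity), mul_zero]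
      unfold inf1
      have : 0 ≤ EE (fun x => dd f ⟨0, hN⟩ x ^ 2) := EE_nonneg fun x => sq_nonneg _
      positivity
    · have hV : 0 < var f := by
        rcases hvar0.lt_or_eq with h | h
        · exact h
        · exfalso; apply hz; rw [← h]; simp
      have hd : 1 ≤ d := by
        by_contra hd
        have : d = 0 := by omega
        apply hz; rw [this]; simp
      obtain ⟨j, hj⟩ := h N f hf d hd hdeg hV
      refine ⟨j, ?_⟩
      rw [variance_eq, influence_eq]
      refine le_trans ?_ hj
      have hd1 : (1:ℝ) ≤ d := by exact_mod_cast hd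
      have hq0 : 0 < var f / (d:ℝ) := by positivity
      have hq1 : var f / (d:ℝ) ≤ 1 := by
        rw [div_le_one (by linarith)]
        have := var_le_one f hf
        linarith
      apply mul_le_mul_of_nonneg_left _ hc.le
      rw [← Real.rpow_natCast]
      exact Real.rpow_le_rpow_of_exponent_ge hq0 hq1 (by linarith)

theorem mean_iff : ForSomeExponent MeanMoves ↔ P2 := by
  unfold ForSomeExponent MeanMoves P2
  simp only [variance_eq, mean_eq]
  exact Iff.rfl

theorem variance_iff : ForSomeExponent VarianceMoves ↔ P3 := by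
  unfold ForSomeExponent VarianceMoves P3
  simp only [variance_eq]
  exact Iff.rfl

theorem linear_iff : ForSomeExponent LinearPart ↔ P4 := by
  unfold ForSomeExponent LinearPart P4
  simp only [variance_eq, levelOne_eq]
  exact Iff.rfl

theorem law_iff : ForSomeExponent LawMoves ↔ P5 := by
  unfold ForSomeExponent LawMoves P5
  simp only [variance_eq, mean_eq, tiltedMean_eq]
  constructor
  · rintro ⟨C, h⟩
    refine ⟨C, fun N f hf d hd hdeg hV => ?_⟩
    obtain ⟨b, h1, h2, q, h3, h4⟩ := h N f hf d hd hdeg hV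
    exact ⟨fun j => - b j, fun j => by rw [abs_neg]; exact h1 j, by simpa using h2, q, h3, h4⟩
  · rintro ⟨C, h⟩
    refine ⟨C, fun N f hf d hd hdeg hV => ?_⟩
    obtain ⟨b, h1, h2, q, h3, h4⟩ := h N f hf d hd hdeg hV
    exact ⟨fun j => - b j, fun j => by rw [abs_neg]; exact h1 j, by simpa using h2, q, h3,
      by simpa using h4⟩

theorem stablePart_eq (κ : ℝ) (g : (Fin n → Bool) → ℝ) :
    stablePart κ g = Pool.Agent.H889R3.SA.st κ g := by
  unfold stablePart Pool.Agent.H889R3.SA.st
  rw [← Finset.add_sum_erase Finset.univ _ (Finset.mem_univ (∅ : Finset (Fin n)))]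
  rw [if_neg (by simp), zero_add]
  refine Finset.sum_congr rfl fun T hT => ?_
  rw [if_pos (Finset.nonempty_iff_ne_empty.2 (Finset.ne_of_mem_erase hT))]
  congr 1
  unfold Pool.Agent.H889R3.SA.fh
  rw [mean_eq]
  have h1 : EE (fun x => g x * ∏ i ∈ T, sg (x i))
      = (-1) ^ T.card * EE (fun x => g x * ∏ i ∈ T, (-1 : ℝ) ^ (x i).toNat) := by
    rw [← EE_mul]
    apply EE_congr
    intro x
    have : ∏ j ∈ T, sg (x j) = (-1) ^ T.card * ∏ i ∈ T, (-1 : ℝ) ^ (x i).toNat := by
      rw [← Finset.prod_const, ← Finset.prod_mul_distrib]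
      apply Finset.prod_congr rfl
      intro j _
      rw [sg_eq]; ring
    rw [this]; ring
  rw [h1, mul_pow, ← pow_mul, mul_comm T.card 2, pow_mul]
  norm_num

theorem stable_iff (κ : ℝ) : ForSomeExponent (StableRestriction κ) ↔ P6 κ := by
  unfold ForSomeExponent StableRestriction P6
  simp only [variance_eq, stablePart_eq]
  exact Iff.rfl

theorem local_iff : ForSomeExponent LocalInfluence ↔ P7 := by
  unfold ForSomeExponent LocalInfluence P7
  simp only [variance_eq, influence_eq]
  exact Iff.rfl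

theorem tilted_iff : ForSomeExponent TiltedInfluence ↔ P8 := by
  unfold ForSomeExponent TiltedInfluence P8
  simp only [variance_eq, tiltedMean_eq]
  constructor
  · rintro ⟨C, h⟩
    refine ⟨C, fun N f hf d hd hdeg hV => ?_⟩
    obtain ⟨b, h1, h2, j, h3⟩ := h N f hf d hd hdeg hV
    exact ⟨fun j => - b j, fun j => by rw [abs_neg]; exact h1 j, by simpa using h2, j, h3⟩
  · rintro ⟨C, h⟩
    refine ⟨C, fun N f hf d hd hdeg hV => ?_⟩
    obtain ⟨b, h1, h2, j, h3⟩ := h N f hf d hd hdeg hV
    refine ⟨fun j => - b j, fun j => by rw [abs_neg]; exact h1 j, by simpa using h2, j, ?_⟩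
    simp only [neg_neg]
    exact h3

theorem result (κ : ℝ) (hκ : 0 < κ) (hκ' : κ ≤ 1 / 2) :
    List.TFAE [AaronsonAmbainis, ForSomeExponent MeanMoves, ForSomeExponent VarianceMoves,
      ForSomeExponent LinearPart, ForSomeExponent (StableRestriction κ),
      ForSomeExponent LocalInfluence, ForSomeExponent LawMoves,
      ForSomeExponent TiltedInfluence] := by
  rw [aa_iff, mean_iff, variance_iff, linear_iff, stable_iff, local_iff, law_iff, tilted_iff]
  tfae_have 1 → 2 := p1_p2
  tfae_have 1 → 3 := p1_p3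
  tfae_have 2 → 4 := p2_p4
  tfae_have 4 → 5 := p4_p6 κ hκ'
  tfae_have 5 → 6 := p6_p7 κ hκ hκ'
  tfae_have 6 → 8 := p7_p8
  tfae_have 8 → 1 := p8_p1
  tfae_have 4 → 7 := p4_p5
  tfae_have 3 → 7 := p3_p5
  tfae_have 7 → 1 := p5_p1
  tfae_finish

end Pool.Agent.Results.MP_cf5f8b_an.Equivalences
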