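import Pool.Agent.TH334.PR.Model

/-!
# Influential variables of functions close to a function of quantum algorithms with few entangled
reads

A quantum query algorithm with `T` queries (`state`, `acc` in `Pool.Agent.TH334.NR.Model`) reads the
position `i` at a basis state `(some i, w)`.  The read is a product read (`ProductRead`) if the
amplitudes of this basis state for `x i` false and for `x i` true are proportional, with a real
ratio (possibly `0` or `∞`) which does not depend on the other bits; every other read is entangled.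
First reads and reads of a bit whose value is recorded in the basis state are product
reads.  `FewEntangledReads U s₀ T k` says that every computational path makes at
most `k` entangled reads (there are counters on the basis states).

Let `p κ` (`κ < r`) be the acceptance probabilities of `r` such algorithms, let `F` be a real
function which is `L`-Lipschitz for the `ℓ¹` norm, and let `f` be any real function on the cube of
positive variance which differs from `F (p 0, ..., p (r - 1))` by at most `√(Var f) / 8` in `L²`.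
Then some variable has influence at least
`Var f ^ 3 / (3072 (1 + 26 T ^ 3) ^ k L ^ 4 r ^ 5 T ^ 10)` on `f`.
-/

set_option autoImplicit false

namespace Pool.Agent.Results.MP_cf5f8b_an.FewEntangledReads

open Pool.Agent.TH334.NR Pool.Agent.TH334.PR Pool.Agent.H572R2

theorem result (N T m r k : ℕ)
    (U : Fin r → ℕ → Matrix.unitaryGroup (Option (Fin N) × Fin m) ℂ)
    (s₀ : Fin r → Option (Fin N) × Fin m) (Acc : Fin r → Finset (Option (Fin N) × Fin m))
    (hU : ∀ κ, FewEntangledReads (U κ) (s₀ κ) T k)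
    (L : ℝ) (hL : 0 < L) (F : (Fin r → ℝ) → ℝ)
    (hF : ∀ u v : Fin r → ℝ, (∀ κ, 0 ≤ u κ ∧ u κ ≤ 1) → (∀ κ, 0 ≤ v κ ∧ v κ ≤ 1) →
      |F u - F v| ≤ L * ∑ κ, |u κ - v κ|)
    (f : (Fin N → Bool) → ℝ) (Var : ℝ)
    (hVar : Var = ((2 : ℝ) ^ N)⁻¹ * ∑ x : Fin N → Bool, f x ^ 2
      - (((2 : ℝ) ^ N)⁻¹ * ∑ x : Fin N → Bool, f x) ^ 2)
    (hpos : 0 < Var)
    (hclose : ((2 : ℝ) ^ N)⁻¹ * ∑ x : Fin N → Bool,
      (f x - F (fun κ => acc (U κ) (s₀ κ) (Acc κ) T x)) ^ 2 ≤ Var / 64) :
    ∃ j : Fin N, Var ^ 3 / (3072 * (1 + 26 * (T : ℝ) ^ 3) ^ k * L ^ 4 * (r : ℝ) ^ 5 * (T : ℝ) ^ 10)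
      ≤ ((2 : ℝ) ^ N)⁻¹ * ∑ x : Fin N → Bool,
        ((f x - f (Function.update x j (!x j))) / 2) ^ 2 := by
  have hV : Var = Cv f f := by
    rw [hVar]
    unfold Cv EE
    simp only [sq, div_eq_inv_mul]
  have hIf : ∀ j, ((2 : ℝ) ^ N)⁻¹ * ∑ x : Fin N → Bool,
      ((f x - f (Function.update x j (!x j))) / 2) ^ 2 = If j f := by
    intro j
    unfold If EE
    rw [div_eq_inv_mul]
    rfl
  simp_rw [hIf]
  set g : (Fin N → Bool) → ℝ := fun x => F (fun κ => acc (U κ) (s₀ κ) (Acc κ) T x) with hg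
  have hgL : ∀ x y, |g x - g y| ≤ L * ∑ κ, |(toAlg (U κ) (s₀ κ)).ap T (Acc κ) x
      - (toAlg (U κ) (s₀ κ)).ap T (Acc κ) y| := by
    intro x y
    simp_rw [toAlg_ap]
    exact hF _ _ (fun κ => ⟨acc_nonneg _ _ _ _ _, acc_le_one _ _ _ _ _⟩)
      (fun κ => ⟨acc_nonneg _ _ _ _ _, acc_le_one _ _ _ _ _⟩)
  have hA : ∀ κ, LightN (toAlg (U κ) (s₀ κ)) T ((1 + 26 * (T : ℝ) ^ 3) ^ k) :=
    fun κ => toAlg_light _ _ (hU κ)
  have hc : EE (fun x => (f x - g x) ^ 2) ≤ Cv f f / 64 := by
    rw [← hV]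
    refine le_trans (le_of_eq ?_) hclose
    unfold EE
    rw [div_eq_inv_mul]
  have key : ∀ I : ℝ, 0 ≤ I → (∀ l, Real.sqrt (If l f) ≤ I) →
      Var ^ 3 ≤ 3072 * (1 + 26 * (T : ℝ) ^ 3) ^ k * L ^ 4 * (r : ℝ) ^ 5 * (T : ℝ) ^ 10 * I ^ 2 := by
    intro I hI0 hI
    rw [hV]
    exact fam_closeC (fun κ => toAlg (U κ) (s₀ κ)) Acc
      ((1 + 26 * (T : ℝ) ^ 3) ^ k) (one_le_C T k) hA f g L hL hgL (by rw [← hV]; exact hpos)
      hc I hI0 hI
  rcases isEmpty_or_nonempty (Fin N) with he | hne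
  · exfalso
    have h := key 0 le_rfl (fun l => (he.false l).elim)
    have : 0 < Var ^ 3 := by positivity
    simp only [ne_eq, OfNat.ofNat_ne_zero, not_false_eq_true, zero_pow, mul_zero] at h
    linarith
  · obtain ⟨j, hj⟩ := Finite.exists_max (fun l => If l f)
    refine ⟨j, ?_⟩
    have h := key (Real.sqrt (If j f)) (Real.sqrt_nonneg _) (fun l => Real.sqrt_le_sqrt (hj l))
    rw [Real.sq_sqrt (If_nonneg j f)] at h
    have hden : 0 ≤ 3072 * (1 + 26 * (T : ℝ) ^ 3) ^ k * L ^ 4 * (r : ℝ) ^ 5 * (T : ℝ) ^ 10 := by positivity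
    rcases hden.eq_or_lt with h0 | h0
    · rw [← h0, div_zero]
      exact If_nonneg j f
    · rw [div_le_iff₀ h0]
      linarith

end Pool.Agent.Results.MP_cf5f8b_an.FewEntangledReads
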