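import Pool.Agent.TH334.AA.Crit2

/-!
# An influential variable, or a restriction of few variables that is rigid under small tilts

For a bounded function of degree at most `d` on the cube, either some variable has influence at
least `1 / M ^ 2`, or one can fix at most `M` variables so that the restricted function `g` keeps an
eighth of the variance and, under every product measure whose vector of means `b` satisfies
`∑ b_j ^ 2 ≤ r` (in particular on every subcube of codimension at most `r`), the law of `g` is within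
`δ` of its uniform law and every variable has average effect at most `δ`; here
`M = 2 ^ 25 * d ^ 6 * r / (Var f * δ ^ 3)`.
-/

set_option autoImplicit false

namespace Pool.Agent.Results.MP_cf5f8b_an.RigidRestriction

variable {n : ℕ}

/-- The uniform mean. -/
noncomputable def mean (g : (Fin n → Bool) → ℝ) : ℝ := ((2:ℝ) ^ n)⁻¹ * ∑ x : Fin n → Bool, g x

/-- The variance. -/
noncomputable def variance (g : (Fin n → Bool) → ℝ) : ℝ := mean (fun x => g x ^ 2) - mean g ^ 2

/-- The Fourier coefficients above level `d` vanish. -/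
def DegreeLE (d : ℕ) (f : (Fin n → Bool) → ℝ) : Prop :=
  ∀ S : Finset (Fin n), d < S.card →
    ∑ x : Fin n → Bool, f x * ∏ i ∈ S, (-1 : ℝ) ^ (x i).toNat = 0

/-- Half the difference of the values of `g` at `x` and at `x` with its `j`-th bit flipped. -/
noncomputable def effect (j : Fin n) (g : (Fin n → Bool) → ℝ) (x : Fin n → Bool) : ℝ :=
  (g x - g (Function.update x j (!x j))) / 2

/-- The influence of the coordinate `j`. -/
noncomputable def influence (j : Fin n) (f : (Fin n → Bool) → ℝ) : ℝ :=
  mean (fun x => effect j f x ^ 2)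

/-- The restriction of `f` to the subcube where the coordinates in `S` are fixed as in `a`. -/
def restrict (S : Finset (Fin n)) (a : Fin n → Bool) (f : (Fin n → Bool) → ℝ) :
    (Fin n → Bool) → ℝ :=
  fun x => f (fun i => if i ∈ S then a i else x i)

/-- The mean under the product measure for which the `j`-th sign has mean `b j`. -/
noncomputable def tiltedMean (b : Fin n → ℝ) (g : (Fin n → Bool) → ℝ) : ℝ :=
  mean (fun x => g x * ∏ j, (1 + b j * (-1 : ℝ) ^ (x j).toNat))

open Pool.Agent.H572R2 Pool.Agent.H572R4.QA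

theorem mean_eq (g : (Fin n → Bool) → ℝ) : mean g = EE g := by
  unfold mean EE
  rw [inv_mul_eq_div]

theorem variance_eq (g : (Fin n → Bool) → ℝ) : variance g = var g := by
  unfold variance var
  rw [mean_eq, mean_eq]

theorem tiltedMean_eq (b : Fin n → ℝ) (g : (Fin n → Bool) → ℝ) :
    tiltedMean b g = mu (fun j => - b j) g := by
  unfold tiltedMean mu
  rw [mean_eq]
  apply EE_congr
  intro x
  congr 1
  apply Finset.prod_congr rfl
  intro j _
  cases x j <;> simp [sg]

theorem result (n : ℕ) (f : (Fin n → Bool) → ℝ) (hf : ∀ x, |f x| ≤ 1) (d : ℕ) (hd : 1 ≤ d)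
    (hdeg : DegreeLE d f) (hV : 0 < variance f) (r δ : ℝ) (hr : 1 ≤ r) (hδ : 0 < δ)
    (hδ1 : δ ≤ 1) :
    (∃ j : Fin n, (1 / (2 ^ 25 * (d : ℝ) ^ 6 * r / (variance f * δ ^ 3))) ^ 2 ≤ influence j f) ∨
    (∃ (S : Finset (Fin n)) (a : Fin n → Bool),
      (S.card : ℝ) ≤ 2 ^ 25 * (d : ℝ) ^ 6 * r / (variance f * δ ^ 3) ∧
      variance f / 8 ≤ variance (restrict S a f) ∧
      ∀ b : Fin n → ℝ, (∀ j, |b j| ≤ 1) → ∑ j, b j ^ 2 ≤ r →
        (∀ q : ℝ → ℝ, (∀ s t : ℝ, |s| ≤ 1 → |t| ≤ 1 → |q s - q t| ≤ |s - t|) →
          |tiltedMean b (fun x => q (restrict S a f x)) - mean (fun x => q (restrict S a f x))|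
            ≤ δ) ∧
        (∀ j : Fin n, tiltedMean b (fun x => |effect j (restrict S a f) x|) ≤ δ)) := by
  rw [variance_eq] at hV ⊢
  rcases Pool.Agent.TH334.AA.dichotomy2 f hf d hd hdeg hV r δ hr hδ hδ1 with ⟨j, hj⟩ |
    ⟨S, a, h1, h2, h3⟩
  · left
    refine ⟨j, ?_⟩
    unfold influence
    rw [mean_eq]
    exact hj
  · right
    refine ⟨S, a, h1, ?_, ?_⟩
    · rw [variance_eq]
      exact h2
    · intro b hb hbr
      have h4 := h3 (fun j => - b j) (fun j => by rw [abs_neg]; exact hb j) (by
        simpa using hbr)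
      constructor
      · intro q hq
        rw [tiltedMean_eq, mean_eq]
        exact h4.1 q hq
      · intro j
        rw [tiltedMean_eq]
        exact h4.2 j

end Pool.Agent.Results.MP_cf5f8b_an.RigidRestriction
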